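import Pool.Agent.W_MP_7e32c9_lc.Defs
import Pool.Agent.W_MP_7e32c9_lc.Numbers

set_option autoImplicit false

open Pool.Agent.W_MP_7e32c9_lc

/-- There is no randomized online protocol that routes all simple path collections with
`max{C, D} < (log n)^(1+ε)` in `O(C + D)` steps with high probability: for every constant `c`, every
`α` and all large `n` there is a finite (even leveled) network in which every randomized online
protocol for `n` packets fails to deliver some simple path collection of size `n` within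
`c (C + D)` steps with probability more than `n^(-α)`. -/
theorem Pool.Agent.Results.MP_7e32c9_lc.NoOptimalOnline.result.{u}
    (ε α c : ℝ) (hε : 0 < ε) (hα : 0 < α) (hc : 0 < c) :
    ∃ δ : ℝ, 0 < δ ∧ ∃ n₀ : ℕ, ∀ n : ℕ, n₀ ≤ n →
      ∃ (V : Type) (_ : Fintype V) (Adj : V → V → Prop) (lev : V → ℕ),
        (∀ u v, Adj u v → lev v = lev u + 1) ∧
        ∀ (Ω : Type u) [MeasurableSpace Ω] (μ : MeasureTheory.Measure Ω)
          [MeasureTheory.IsProbabilityMeasure μ] (A : Ω → OnlineProtocol V n),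
          ∃ P : PathCollection V Adj n,
            (Real.log n) ^ δ ≤ (P.congestion : ℝ) ∧
            ((max P.congestion P.dilation : ℕ) : ℝ) < (Real.log n) ^ (1 + ε) ∧
            ENNReal.ofReal ((n : ℝ) ^ (-α)) <
              μ {ω | ¬ Delivers (A ω) P ⌊c * ((P.congestion : ℝ) + (P.dilation : ℝ))⌋₊} := by
  obtain ⟨L, δ, hL, hδ, n₀, hn₀⟩ := parameters ε α c hε hα hc
  refine ⟨δ, hδ, n₀, fun n hn => ?_⟩
  obtain ⟨k, hk, h1, h2, h3, h4, h5, h6⟩ := hn₀ n hn
  refine ⟨Node (AA L k) n, inferInstance, NAdj, lev, fun u v h => h, ?_⟩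
  intro Ω _ μ _ A
  have hprod : ∏ i, AA L k i ≤ n := by
    have : ((∏ i, AA L k i : ℕ) : ℝ) ≤ n :=
      le_trans (by exact_mod_cast prod_AA_le L k hk) h5
    exact_mod_cast this
  have hpos : ∀ i, 0 < AA L k i := fun i => Nat.pow_pos hk
  obtain ⟨P, hC, hD, hP⟩ := core (A := AA L k) hL k hk hpos (growth L k hk) hprod Ω μ A
  refine ⟨P, by rw [hC]; exact h1, ?_, ?_⟩
  · rw [hC, Nat.cast_max]
    refine max_lt h2 (lt_of_le_of_lt ?_ h3)
    exact_mod_cast hD
  · have htime : ⌊c * ((P.congestion : ℝ) + (P.dilation : ℝ))⌋₊ < L * k := by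
      rw [Nat.floor_lt (by positivity)]
      rw [hC]
      have hD' : (P.dilation : ℝ) ≤ ((2 * L - 1 : ℕ) : ℝ) := by exact_mod_cast hD
      have : c * ((k : ℝ) + P.dilation) ≤ c * (k + (2 * L - 1 : ℕ)) := by gcongr
      push_cast
      linarith
    have hPt := hP _ htime
    set p := μ {ω | ¬ Delivers (A ω) P ⌊c * ((P.congestion : ℝ) + (P.dilation : ℝ))⌋₊} with hp
    by_contra hcon
    have hle : p ≤ ENNReal.ofReal ((n : ℝ) ^ (-α)) := not_lt.1 hcon
    have hW : ((∏ i, (AA L k i).choose k : ℕ) : ENNReal) ≤ ENNReal.ofReal ((k ^ ((k + 2) ^ L) : ℕ) : ℝ) := by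
      rw [ENNReal.ofReal_natCast]
      exact_mod_cast prod_choose_le L k hk
    have hn1 : (1 : ℝ) ≤ n := by
      refine le_trans ?_ h5
      exact_mod_cast Nat.one_le_pow _ _ hk
    have hn0 : (0 : ℝ) < n := by linarith
    have : (1 : ENNReal) < 1 := by
      calc (1 : ENNReal) ≤ ((∏ i, (AA L k i).choose k : ℕ) : ENNReal) * p := hPt
        _ ≤ ENNReal.ofReal ((k ^ ((k + 2) ^ L) : ℕ) : ℝ) * ENNReal.ofReal ((n : ℝ) ^ (-α)) := by
            gcongr
        _ = ENNReal.ofReal (((k ^ ((k + 2) ^ L) : ℕ) : ℝ) * (n : ℝ) ^ (-α)) := by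
            rw [ENNReal.ofReal_mul (by positivity)]
        _ < ENNReal.ofReal 1 := by
            rw [ENNReal.ofReal_lt_ofReal_iff one_pos]
            have hpos' : 0 < (n : ℝ) ^ (-α) := by positivity
            calc ((k ^ ((k + 2) ^ L) : ℕ) : ℝ) * (n : ℝ) ^ (-α)
                < (n : ℝ) ^ α * (n : ℝ) ^ (-α) := by gcongr
              _ = 1 := by rw [← Real.rpow_add hn0]; simp
        _ = 1 := ENNReal.ofReal_one
    exact absurd this (lt_irrefl _)
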